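import Pool.Agent.R986.SpeedMain

/-!
# Concavity of the escape speed in the rates on Coxeter groups
-/

set_option autoImplicit false

open Filter Topology

namespace Pool.Agent.Results.MP_47d77c_pr.SpeedConcave

open Pool.Agent.R986.CoxSpeed

/-- The expected word length of the walk after its first `n` jumps: each jump goes from `w` to
`w s` with probability `r_s / R`, where `R` is the sum of all rates. -/
noncomputable def jumpMean {B : Type*} [Fintype B] {M : CoxeterMatrix B} {W : Type*} [Group W]
    (cs : CoxeterSystem M W) (r : B → ℝ) (n : ℕ) : ℝ :=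
  ∑ v : Fin n → B, (∏ i, (r (v i) / ∑ s, r s)) * (cs.length (cs.wordProd (List.ofFn v)) : ℝ)

/-- The expected word length of the continuous-time walk at time `t`: the number of jumps up to
time `t` has the Poisson distribution with mean `R t` and is independent of the jumps. -/
noncomputable def meanLength {B : Type*} [Fintype B] {M : CoxeterMatrix B} {W : Type*} [Group W]
    (cs : CoxeterSystem M W) (r : B → ℝ) (t : ℝ) : ℝ :=
  ∑' n : ℕ, Real.exp (-((∑ s, r s) * t)) * ((∑ s, r s) * t) ^ n / n.factorial *
    jumpMean cs r n

theorem result {B : Type*} [Fintype B] {M : CoxeterMatrix B} {W : Type*} [Group W]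
    (cs : CoxeterSystem M W) :
    ∃ σ : (B → ℝ) → ℝ,
      (∀ r : B → ℝ, (∀ s, 0 < r s) →
        Tendsto (fun t : ℝ => meanLength cs r t / t) atTop (𝓝 (σ r))) ∧
      ConcaveOn ℝ {r : B → ℝ | ∀ s, 0 < r s} σ := by
  have hconv : Convex ℝ {r : B → ℝ | ∀ s, 0 < r s} := by
    intro x hx y hy a b ha hb hab s
    have h1 : 0 < x s := hx s
    have h2 : 0 < y s := hy s
    show 0 < a * x s + b * y s
    rcases eq_or_lt_of_le ha with h | h
    · rw [← h] at hab ⊢
      have : b = 1 := by linarith
      rw [this]; linarith
    · have := mul_pos h h1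
      have := mul_nonneg hb h2.le
      linarith
  refine ⟨fun r => (∑ s, r s) * speedJ cs r, ?_, hconv, ?_⟩
  · intro r hr
    rcases isEmpty_or_nonempty B with hB | hB
    · have h0 : ∀ t, meanLength cs r t = 0 := by
        intro t
        unfold meanLength
        rw [← tsum_zero]
        apply tsum_congr
        intro n
        rcases Nat.eq_zero_or_pos n with rfl | hn
        · simp [jumpMean]
        · have : (∑ s, r s) = 0 := by simp
          rw [this]
          simp [hn.ne']
      simp only [h0, zero_div]
      have : (∑ s, r s) * speedJ cs r = 0 := by simp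
      rw [this]
      exact tendsto_const_nhds
    · have hR : 0 < ∑ s, r s := Finset.sum_pos (fun s _ => hr s) Finset.univ_nonempty
      have h1 := poisson_limit (an cs r) (speedJ cs r) (tendsto_an cs r (fun s => (hr s).le) hR)
      have h2 : Tendsto (fun t : ℝ => (∑ s, r s) * t) atTop atTop :=
        tendsto_id.const_mul_atTop hR
      have h3 := (h1.comp h2).const_mul (∑ s, r s)
      refine h3.congr fun t => ?_
      simp only [Function.comp_apply]
      have h4 : meanLength cs r t = ∑' n : ℕ, Real.exp (-((∑ s, r s) * t)) *
        ((∑ s, r s) * t) ^ n / n.factorial * an cs r n := rfl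
      rw [h4, mul_div_assoc', mul_div_mul_left _ _ hR.ne']
  · intro x hx y hy a b ha hb hab
    have h1 : ∀ s, 0 < x s := hx
    have h2 : ∀ s, 0 < y s := hy
    rcases isEmpty_or_nonempty B with hB | hB
    · simp
    · have hz : ∀ s, 0 < (a • x + b • y) s := hconv hx hy ha hb hab
      exact speed_concave cs (a • x + b • y) x y (fun s => (h1 s).le) (fun s => (h2 s).le)
        (Finset.sum_pos (fun s _ => hz s) Finset.univ_nonempty)
        (Finset.sum_pos (fun s _ => h1 s) Finset.univ_nonempty)
        (Finset.sum_pos (fun s _ => h2 s) Finset.univ_nonempty) a b ha hb hab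
        (fun s => rfl)

end Pool.Agent.Results.MP_47d77c_pr.SpeedConcave
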